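import Mathlib

open MeasureTheory Filter Topology
open scoped ENNReal

namespace Pool.Agent.Results.MP_d057eb_an.NthDiameterLimit

/-- The logarithmic energy `I(μ) = ∬ log|z - w| dμ(w) dμ(z)`: the integral of the positive part
of `log|z - w|` minus the integral of its negative part, where `log 0 = -∞`. -/
noncomputable def energy (μ : Measure ℂ) : EReal :=
  ((∫⁻ z, ∫⁻ w, (ENNReal.log (edist z w)).toENNReal ∂μ ∂μ : ℝ≥0∞) : EReal) -
    ((∫⁻ z, ∫⁻ w, (-ENNReal.log (edist z w)).toENNReal ∂μ ∂μ : ℝ≥0∞) : EReal)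

/-- The logarithmic capacity `C(E) = exp (sup_μ I(μ))`, the supremum being over all Borel
probability measures `μ` supported on `E`, with `exp (-∞) = 0`. -/
noncomputable def capacity (E : Set ℂ) : ℝ≥0∞ :=
  EReal.exp (⨆ (μ : Measure ℂ) (_ : IsProbabilityMeasure μ ∧ μ Eᶜ = 0), energy μ)

/-- The `n`-th diameter
`δ_n(E) = sup { ∏_{j < k} |w_j - w_k| ^ (2 / (n (n - 1))) : w_1, …, w_n ∈ E }`. -/
noncomputable def nthDiameter (n : ℕ) (E : Set ℂ) : ℝ :=
  sSup {x : ℝ | ∃ w : Fin n → ℂ, (∀ j, w j ∈ E) ∧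
    x = ∏ j, ∏ k ∈ Finset.Ioi j, ‖w j - w k‖ ^ (2 / ((n : ℝ) * ((n : ℝ) - 1)))}

/-- The closed `ε`-neighbourhood `K^ε = {z : dist(z, K) ≤ ε}`. -/
def closedNbhd (K : Set ℂ) (ε : ℝ) : Set ℂ := {z | Metric.infDist z K ≤ ε}

end Pool.Agent.Results.MP_d057eb_an.NthDiameterLimit
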