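import Pool.Agent.Work.MP_d057eb_an.Defs

open MeasureTheory Filter Topology
open scoped ENNReal

namespace Pool.Agent.Results.MP_d057eb_an.NthDiameterLimit

/-! ### Energies and a one-signed kernel -/

/-- the nonnegative kernel `log (R / |z - w|)` -/
noncomputable def G (L : ℝ) (z w : ℂ) : ℝ≥0∞ := ((L : EReal) - ENNReal.log (edist z w)).toENNReal

lemma measurable_log_edist : Measurable (fun p : ℂ × ℂ => ENNReal.log (edist p.1 p.2)) :=
  Measurable.ennreal_log (by fun_prop)

lemma measurable_G (L : ℝ) : Measurable (fun p : ℂ × ℂ => G L p.1 p.2) := by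
  unfold G
  have h1 : Measurable (fun p : ℂ × ℂ => ((L : EReal) - ENNReal.log (edist p.1 p.2))) := by
    have := measurable_log_edist
    exact measurable_const.sub this
  exact h1.ereal_toENNReal

lemma G_of_ne {L : ℝ} {z w : ℂ} (h : z ≠ w) :
    G L z w = ENNReal.ofReal (L - Real.log ‖z - w‖) := by
  have h0 : 0 < ‖z - w‖ := norm_pos_iff.2 (sub_ne_zero.2 h)
  unfold G
  rw [edist_dist, dist_eq_norm, ENNReal.log_ofReal_of_pos h0, ← EReal.coe_sub,
    EReal.real_coe_toENNReal]

lemma G_self {L : ℝ} {z : ℂ} : G L z z = ⊤ := by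
  unfold G
  simp

lemma pointwise_identity {L : ℝ} (hL : 0 ≤ L) {a : EReal} (ha : a ≤ (L : EReal)) :
    a.toENNReal + ((L : EReal) - a).toENNReal = ENNReal.ofReal L + (-a).toENNReal := by
  induction a with
  | bot => simp
  | top => simp at ha
  | coe x =>
    have hx : x ≤ L := by exact_mod_cast ha
    rw [← EReal.coe_sub, ← EReal.coe_neg, EReal.real_coe_toENNReal, EReal.real_coe_toENNReal,
      EReal.real_coe_toENNReal]
    rcases le_or_gt 0 x with h | h
    · rw [← ENNReal.ofReal_add h (by linarith), ENNReal.ofReal_of_nonpos (p := -x) (by linarith)]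
      simp
    · rw [ENNReal.ofReal_of_nonpos h.le, ← ENNReal.ofReal_add hL (by linarith)]
      simp [sub_eq_add_neg]

lemma energy_eq {μ : Measure ℂ} [IsProbabilityMeasure μ] {L : ℝ} (hL : 0 ≤ L)
    (h : ∀ᵐ z ∂μ, ∀ᵐ w ∂μ, ‖z - w‖ ≤ Real.exp L) :
    energy μ = (L : EReal) - ((∫⁻ z, ∫⁻ w, G L z w ∂μ ∂μ : ℝ≥0∞) : EReal) := by
  have hm1 : Measurable (fun p : ℂ × ℂ => (ENNReal.log (edist p.1 p.2)).toENNReal) :=
    measurable_log_edist.ereal_toENNReal
  have hm2 : Measurable (fun p : ℂ × ℂ => (-ENNReal.log (edist p.1 p.2)).toENNReal) :=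
    measurable_log_edist.neg.ereal_toENNReal
  have hm3 := measurable_G L
  have hle : ∀ᵐ z ∂μ, ∀ᵐ w ∂μ, ENNReal.log (edist z w) ≤ (L : EReal) := by
    filter_upwards [h] with z hz
    filter_upwards [hz] with w hw
    have : ENNReal.log (ENNReal.ofReal (Real.exp L)) = (L : EReal) := by
      rw [ENNReal.log_ofReal_of_pos (Real.exp_pos L), Real.log_exp]
    rw [← this, ENNReal.log_le_log_iff, edist_dist, dist_eq_norm]
    exact ENNReal.ofReal_le_ofReal hw
  set A := ∫⁻ z, ∫⁻ w, (ENNReal.log (edist z w)).toENNReal ∂μ ∂μ with hA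
  set B := ∫⁻ z, ∫⁻ w, (-ENNReal.log (edist z w)).toENNReal ∂μ ∂μ with hB
  set J := ∫⁻ z, ∫⁻ w, G L z w ∂μ ∂μ with hJ
  have key : A + J = ENNReal.ofReal L + B := by
    have e1 : A + J = ∫⁻ z, ∫⁻ w, ((ENNReal.log (edist z w)).toENNReal + G L z w) ∂μ ∂μ := by
      rw [hA, hJ, ← lintegral_add_left]
      · congr 1
        ext z
        rw [← lintegral_add_left]
        exact hm1.comp measurable_prodMk_left
      · exact hm1.lintegral_prod_right'
    have e2 : ENNReal.ofReal L + B
        = ∫⁻ z, ∫⁻ w, (ENNReal.ofReal L + (-ENNReal.log (edist z w)).toENNReal) ∂μ ∂μ := by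
      have : ∀ z, ∫⁻ w, (ENNReal.ofReal L + (-ENNReal.log (edist z w)).toENNReal) ∂μ
          = ENNReal.ofReal L + ∫⁻ w, (-ENNReal.log (edist z w)).toENNReal ∂μ := by
        intro z
        rw [lintegral_add_left measurable_const]
        simp
      simp_rw [this]
      rw [lintegral_add_left measurable_const]
      simp [hB]
    rw [e1, e2]
    apply lintegral_congr_ae
    filter_upwards [hle] with z hz
    apply lintegral_congr_ae
    filter_upwards [hz] with w hw
    exact pointwise_identity hL hw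
  have hAfin : A ≤ ENNReal.ofReal L := by
    have : A ≤ ∫⁻ z, ∫⁻ w, ENNReal.ofReal L ∂μ ∂μ := by
      apply lintegral_mono_ae
      filter_upwards [hle] with z hz
      apply lintegral_mono_ae
      filter_upwards [hz] with w hw
      have := EReal.toENNReal_le_toENNReal hw
      simpa using this
    simpa using this
  have hAtop : A ≠ ⊤ := ne_top_of_le_ne_top ENNReal.ofReal_ne_top hAfin
  have hen : energy μ = (A : EReal) - (B : EReal) := rfl
  rw [hen]
  have hLcoe : ((ENNReal.ofReal L : ℝ≥0∞) : EReal) = (L : EReal) := by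
    rw [EReal.coe_ennreal_ofReal, max_eq_left hL]
  by_cases hJt : J = ⊤
  · have hBt : B = ⊤ := by
      rw [hJt, add_top] at key
      by_contra hb
      exact ENNReal.add_ne_top.2 ⟨ENNReal.ofReal_ne_top, hb⟩ key.symm
    rw [hJt, hBt, (EReal.coe_ennreal_toReal hAtop).symm]
    simp
  · have hBt : B ≠ ⊤ := by
      intro hb
      rw [hb, add_top] at key
      exact ENNReal.add_ne_top.2 ⟨hAtop, hJt⟩ key
    have key' := congrArg ENNReal.toReal key
    rw [ENNReal.toReal_add hAtop hJt, ENNReal.toReal_add ENNReal.ofReal_ne_top hBt,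
      ENNReal.toReal_ofReal hL] at key'
    have h1 : (A : EReal) = ((A.toReal : ℝ) : EReal) := (EReal.coe_ennreal_toReal hAtop).symm
    have h2 : (B : EReal) = ((B.toReal : ℝ) : EReal) := (EReal.coe_ennreal_toReal hBt).symm
    have h3 : (J : EReal) = ((J.toReal : ℝ) : EReal) := (EReal.coe_ennreal_toReal hJt).symm
    rw [h1, h2, h3, ← EReal.coe_sub, ← EReal.coe_sub]
    congr 1
    linarith

/-! ### The upper bound `C(E) ≤ δ_n(E)` -/

/-- the product of all mutual distances -/
noncomputable def pairProd {n : ℕ} (w : Fin n → ℂ) : ℝ := ∏ j, ∏ k ∈ Finset.Ioi j, ‖w j - w k‖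

/-- the number of pairs -/
def numPairs (n : ℕ) : ℕ := ∑ j : Fin n, (Finset.Ioi j).card

lemma numPairs_eq (n : ℕ) : (numPairs n : ℝ) = (n : ℝ) * ((n : ℝ) - 1) / 2 := by
  have h : ∀ j : Fin n, (Finset.Ioi j).card = n - 1 - (j : ℕ) := fun j => Fin.card_Ioi j
  unfold numPairs
  simp_rw [h]
  rw [Fin.sum_univ_eq_sum_range (fun i => n - 1 - i) n, Finset.sum_range_reflect (fun i => i) n]
  have := Finset.sum_range_id_mul_two n
  have h2 : ((∑ i ∈ Finset.range n, i : ℕ) : ℝ) * 2 = (n : ℝ) * ((n - 1 : ℕ) : ℝ) := by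
    exact_mod_cast this
  rcases Nat.eq_zero_or_pos n with rfl | hn
  · simp
  · rw [Nat.cast_sub hn] at h2
    push_cast at h2 ⊢
    linarith

lemma sum_pairs_const {R : Type*} [Semiring R] (n : ℕ) (c : R) :
    ∑ j : Fin n, ∑ _k ∈ Finset.Ioi j, c = (numPairs n : R) * c := by
  unfold numPairs
  simp only [Finset.sum_const, nsmul_eq_mul, Nat.cast_sum, Finset.sum_mul]

lemma measurable_G_pair (L : ℝ) {n : ℕ} (j k : Fin n) :
    Measurable (fun w : Fin n → ℂ => G L (w j) (w k)) := by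
  have h1 : Measurable (fun w : Fin n → ℂ => (w j, w k)) := by fun_prop
  have h2 := (measurable_G L).comp h1
  exact h2

lemma lintegral_pair {μ : Measure ℂ} [IsProbabilityMeasure μ] {n : ℕ} {j k : Fin n} (hjk : j ≠ k)
    {F : ℂ × ℂ → ℝ≥0∞} (hF : Measurable F) :
    ∫⁻ w : Fin n → ℂ, F (w j, w k) ∂(Measure.pi fun _ => μ) = ∫⁻ z, ∫⁻ w, F (z, w) ∂μ ∂μ := by
  have h1 := ProbabilityTheory.iIndepFun_pi (μ := fun _ : Fin n => μ)
    (X := fun _ : Fin n => (id : ℂ → ℂ)) (fun _ => aemeasurable_id)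
  have h2 := h1.indepFun hjk
  have h3 := (ProbabilityTheory.indepFun_iff_map_prod_eq_prod_map_map
    (measurable_pi_apply j).aemeasurable (measurable_pi_apply k).aemeasurable).1 h2
  have hj : Measure.map (fun ω : Fin n → ℂ => ω j) (Measure.pi fun _ => μ) = μ :=
    (measurePreserving_eval (fun _ : Fin n => μ) j).map_eq
  have hk : Measure.map (fun ω : Fin n → ℂ => ω k) (Measure.pi fun _ => μ) = μ :=
    (measurePreserving_eval (fun _ : Fin n => μ) k).map_eq
  rw [hj, hk] at h3
  have h4 : ∫⁻ w : Fin n → ℂ, F (w j, w k) ∂(Measure.pi fun _ => μ)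
      = ∫⁻ p, F p ∂(Measure.map (fun ω : Fin n → ℂ => (ω j, ω k))
        (Measure.pi fun _ => μ)) := by
    rw [lintegral_map hF (by fun_prop)]
  rw [h4, h3, lintegral_prod _ hF.aemeasurable]

lemma sum_G_ge {n : ℕ} {L M : ℝ} {w : Fin n → ℂ} (hw : pairProd w ≤ M)
    (hL : ∀ j k, ‖w j - w k‖ ≤ Real.exp L) :
    ENNReal.ofReal ((numPairs n : ℝ) * L - Real.log M)
      ≤ ∑ j, ∑ k ∈ Finset.Ioi j, G L (w j) (w k) := by
  by_cases h : ∃ j k, k ∈ Finset.Ioi j ∧ w j = w k
  · obtain ⟨j, k, hk, hjk⟩ := h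
    have : ∑ j, ∑ k ∈ Finset.Ioi j, G L (w j) (w k) = ⊤ := by
      rw [ENNReal.sum_eq_top]
      refine ⟨j, Finset.mem_univ _, ?_⟩
      rw [ENNReal.sum_eq_top]
      refine ⟨k, hk, ?_⟩
      rw [hjk]
      exact G_self
    rw [this]
    exact le_top
  · push Not at h
    have hpos : ∀ j, ∀ k ∈ Finset.Ioi j, 0 < ‖w j - w k‖ := fun j k hk =>
      norm_pos_iff.2 (sub_ne_zero.2 (h j k hk))
    have hprod : 0 < pairProd w :=
      Finset.prod_pos fun j _ => Finset.prod_pos fun k hk => hpos j k hk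
    have e : ∑ j, ∑ k ∈ Finset.Ioi j, G L (w j) (w k)
        = ENNReal.ofReal (∑ j, ∑ k ∈ Finset.Ioi j, (L - Real.log ‖w j - w k‖)) := by
      have hnn : ∀ j, ∀ k ∈ Finset.Ioi j, 0 ≤ L - Real.log ‖w j - w k‖ := by
        intro j k hk
        have := Real.log_le_log (hpos j k hk) (hL j k)
        rw [Real.log_exp] at this
        linarith
      rw [ENNReal.ofReal_sum_of_nonneg fun j _ => Finset.sum_nonneg fun k hk => hnn j k hk]
      refine Finset.sum_congr rfl fun j _ => ?_
      rw [ENNReal.ofReal_sum_of_nonneg fun k hk => hnn j k hk]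
      exact Finset.sum_congr rfl fun k hk => G_of_ne (h j k hk)
    rw [e]
    apply ENNReal.ofReal_le_ofReal
    have hlog : Real.log (pairProd w) = ∑ j, ∑ k ∈ Finset.Ioi j, Real.log ‖w j - w k‖ := by
      unfold pairProd
      rw [Real.log_prod fun j _ => (Finset.prod_pos fun k hk => hpos j k hk).ne']
      exact Finset.sum_congr rfl fun j _ => Real.log_prod fun k hk => (hpos j k hk).ne'
    have hsum : ∑ j, ∑ k ∈ Finset.Ioi j, (L - Real.log ‖w j - w k‖)
        = (numPairs n : ℝ) * L - Real.log (pairProd w) := by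
      rw [hlog, ← sum_pairs_const]
      simp only [Finset.sum_sub_distrib]
    rw [hsum]
    have := Real.log_le_log hprod hw
    linarith

lemma energy_le {μ : Measure ℂ} [IsProbabilityMeasure μ] {E : Set ℂ} (hμ : μ Eᶜ = 0) {n : ℕ}
    (hn : 2 ≤ n) {L M : ℝ} (hL0 : 0 ≤ L) (hL : ∀ z ∈ E, ∀ w ∈ E, ‖z - w‖ ≤ Real.exp L)
    (hw : ∀ w : Fin n → ℂ, (∀ j, w j ∈ E) → pairProd w ≤ M) :
    energy μ ≤ ((Real.log M / numPairs n : ℝ) : EReal) := by
  have hEae : ∀ᵐ z ∂μ, z ∈ E := by
    rw [ae_iff]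
    exact hμ
  have hN : 0 < (numPairs n : ℝ) := by
    rw [numPairs_eq]
    have : (2 : ℝ) ≤ n := by exact_mod_cast hn
    have h2 : 0 < (n : ℝ) * ((n : ℝ) - 1) := by nlinarith
    linarith
  rw [energy_eq hL0 (by
    filter_upwards [hEae] with z hz
    filter_upwards [hEae] with w hw
    exact hL z hz w hw)]
  set J := ∫⁻ z, ∫⁻ w, G L z w ∂μ ∂μ with hJ
  have hpi : ∀ᵐ w : Fin n → ℂ ∂(Measure.pi fun _ => μ), ∀ j, w j ∈ E := by
    rw [ae_all_iff]
    intro j
    exact (measurePreserving_eval (fun _ : Fin n => μ) j).quasiMeasurePreserving.ae hEae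
  have h1 : ENNReal.ofReal ((numPairs n : ℝ) * L - Real.log M) ≤ (numPairs n : ℝ≥0∞) * J := by
    calc ENNReal.ofReal ((numPairs n : ℝ) * L - Real.log M)
        = ∫⁻ _ : Fin n → ℂ, ENNReal.ofReal ((numPairs n : ℝ) * L - Real.log M)
            ∂(Measure.pi fun _ => μ) := by simp
      _ ≤ ∫⁻ w : Fin n → ℂ, ∑ j, ∑ k ∈ Finset.Ioi j, G L (w j) (w k)
            ∂(Measure.pi fun _ => μ) := by
          apply lintegral_mono_ae
          filter_upwards [hpi] with w hwE
          exact sum_G_ge (hw w hwE) fun j k => hL _ (hwE j) _ (hwE k)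
      _ = ∑ j, ∑ k ∈ Finset.Ioi j, ∫⁻ w : Fin n → ℂ, G L (w j) (w k)
            ∂(Measure.pi fun _ => μ) := by
          have hmeas : ∀ j k : Fin n, Measurable (fun w : Fin n → ℂ => G L (w j) (w k)) :=
            measurable_G_pair L
          rw [lintegral_finsetSum _ fun j _ => Finset.measurable_sum _ fun k _ => hmeas j k]
          refine Finset.sum_congr rfl fun j _ => ?_
          rw [lintegral_finsetSum _ fun k _ => hmeas j k]
      _ = ∑ j : Fin n, ∑ k ∈ Finset.Ioi j, J := by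
          refine Finset.sum_congr rfl fun j _ => Finset.sum_congr rfl fun k hk => ?_
          exact lintegral_pair (Finset.mem_Ioi.1 hk).ne (measurable_G L)
      _ = (numPairs n : ℝ≥0∞) * J := sum_pairs_const n J
  by_cases hJt : J = ⊤
  · rw [hJt]
    simp
  · have h2 : (numPairs n : ℝ) * L - Real.log M ≤ (numPairs n : ℝ) * J.toReal := by
      have h3 := ENNReal.toReal_mono (ENNReal.mul_ne_top (ENNReal.natCast_ne_top _) hJt) h1
      rw [ENNReal.toReal_mul, ENNReal.toReal_natCast] at h3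
      refine le_trans ?_ h3
      rw [ENNReal.toReal_ofReal']
      exact le_max_left _ _
    rw [(EReal.coe_ennreal_toReal hJt).symm, ← EReal.coe_sub, EReal.coe_le_coe_iff,
      le_div_iff₀ hN]
    nlinarith

/-! ### Uniform measures on circles -/

/-- the uniform probability measure on the circle with centre `c` and radius `ρ` -/
noncomputable def circ (c : ℂ) (ρ : ℝ) : Measure ℂ :=
  (ENNReal.ofReal (2 * Real.pi)⁻¹) •
    (volume.restrict (Set.Ioc 0 (2 * Real.pi))).map (circleMap c ρ)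

lemma lintegral_circ {c : ℂ} {ρ : ℝ} {f : ℂ → ℝ≥0∞} (hf : Measurable f) :
    ∫⁻ z, f z ∂(circ c ρ) =
      ENNReal.ofReal (2 * Real.pi)⁻¹ * ∫⁻ θ in Set.Ioc 0 (2 * Real.pi), f (circleMap c ρ θ) := by
  unfold circ
  rw [lintegral_smul_measure, lintegral_map hf (measurable_circleMap c ρ), smul_eq_mul]

instance isProb_circ (c : ℂ) (ρ : ℝ) : IsProbabilityMeasure (circ c ρ) := by
  constructor
  have h := lintegral_circ (c := c) (ρ := ρ) (f := fun _ => 1) measurable_const
  simp only [lintegral_const, one_mul, Measure.restrict_apply_univ, Real.volume_Ioc,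
    sub_zero] at h
  rw [h, ← ENNReal.ofReal_mul (by positivity), inv_mul_cancel₀ (by positivity),
    ENNReal.ofReal_one]

lemma circ_ae {c : ℂ} {ρ : ℝ} {p : ℂ → Prop} (hp : MeasurableSet {z | p z})
    (h : ∀ᵐ θ ∂(volume.restrict (Set.Ioc 0 (2 * Real.pi))), p (circleMap c ρ θ)) :
    ∀ᵐ z ∂(circ c ρ), p z := by
  unfold circ
  apply Measure.ae_smul_measure
  rw [ae_map_iff (measurable_circleMap c ρ).aemeasurable hp]
  exact h

lemma circ_ae_sphere (c : ℂ) {ρ : ℝ} (hρ : 0 < ρ) :
    ∀ᵐ z ∂(circ c ρ), z ∈ Metric.sphere c ρ := by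
  apply circ_ae (p := fun z => z ∈ Metric.sphere c ρ) Metric.isClosed_sphere.measurableSet
  exact Eventually.of_forall fun θ => circleMap_mem_sphere c hρ.le θ

lemma circ_ae_ne (c : ℂ) {ρ : ℝ} (hρ : 0 < ρ) (z : ℂ) : ∀ᵐ w ∂(circ c ρ), z ≠ w := by
  apply circ_ae (p := fun w => z ≠ w)
  · have : {w : ℂ | z ≠ w} = {z}ᶜ := by
      ext w
      simp [eq_comm]
    rw [this]
    exact (measurableSet_singleton z).compl
  · rw [ae_restrict_iff' measurableSet_Ioc, ae_iff]
    have hsub : Set.Subsingleton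
        {θ : ℝ | ¬(θ ∈ Set.Ioc 0 (2 * Real.pi) → z ≠ circleMap c ρ θ)} := by
      intro a ha b hb
      simp only [ne_eq, Classical.not_imp, not_not, Set.mem_ofPred_eq] at ha hb
      have hinj := injOn_circleMap_of_abs_sub_le (a := 0) (b := 2 * Real.pi) (R := ρ) (c := c)
        hρ.ne' (by rw [zero_sub, abs_neg, abs_of_pos (by positivity)])
      rw [Set.uIoc_of_le (by positivity)] at hinj
      exact hinj ha.1 hb.1 (ha.2.symm.trans hb.2)
    exact hsub.measure_zero _

lemma lintegral_circ_ofReal {c : ℂ} {ρ : ℝ} (hρ : 0 < ρ) {g : ℂ → ℝ} (hgm : Measurable g)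
    (hg : CircleIntegrable g c ρ) (h0 : ∀ z ∈ Metric.sphere c ρ, 0 ≤ g z) :
    ∫⁻ z, ENNReal.ofReal (g z) ∂(circ c ρ) = ENNReal.ofReal (Real.circleAverage g c ρ) := by
  rw [lintegral_circ hgm.ennreal_ofReal, Real.circleAverage_def, smul_eq_mul,
    ENNReal.ofReal_mul (by positivity)]
  congr 1
  rw [intervalIntegral.integral_of_le (by positivity)]
  rw [ofReal_integral_eq_lintegral_ofReal]
  · have := (circleIntegrable_def g c ρ).1 hg
    rwa [intervalIntegrable_iff_integrableOn_Ioc_of_le (by positivity)] at this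
  · exact Eventually.of_forall fun θ => h0 _ (circleMap_mem_sphere c hρ.le θ)

lemma inner_G {c z : ℂ} {ρ L : ℝ} (hρ : 0 < ρ)
    (hL : ∀ w ∈ Metric.sphere c ρ, ‖w - z‖ ≤ Real.exp L) (hL0 : 0 ≤ L) :
    ∫⁻ w, G L z w ∂(circ c ρ)
      = ENNReal.ofReal (L - (Real.log ρ + Real.posLog (ρ⁻¹ * ‖c - z‖))) := by
  have h1 : ∫⁻ w, G L z w ∂(circ c ρ)
      = ∫⁻ w, ENNReal.ofReal (L - Real.log ‖w - z‖) ∂(circ c ρ) := by
    apply lintegral_congr_ae
    filter_upwards [circ_ae_ne c hρ z] with w hw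
    rw [G_of_ne hw, norm_sub_rev]
  rw [h1, lintegral_circ_ofReal hρ (by fun_prop)]
  · congr 1
    have h2 := Real.circleAverage_sub (f₁ := fun _ : ℂ => L) (f₂ := fun w => Real.log ‖w - z‖)
      (c := c) (R := ρ) (circleIntegrable_const L c ρ) (circleIntegrable_log_norm_sub_const ρ)
    rw [Real.circleAverage_const,
      circleAverage_log_norm_sub_const_eq_log_radius_add_posLog hρ.ne'] at h2
    exact h2
  · exact (circleIntegrable_const L c ρ).sub (circleIntegrable_log_norm_sub_const ρ)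
  · intro w hw
    rcases eq_or_ne w z with rfl | hwz
    · simpa using hL0
    · have := Real.log_le_log (norm_pos_iff.2 (sub_ne_zero.2 hwz)) (hL w hw)
      rw [Real.log_exp] at this
      linarith

lemma outer_G {c c' : ℂ} {ρ L : ℝ} (hρ : 0 < ρ) (hL0 : 0 ≤ L)
    (hL : ‖c - c'‖ + 2 * ρ ≤ Real.exp L) :
    ∫⁻ z, ∫⁻ w, G L z w ∂(circ c' ρ) ∂(circ c ρ)
      ≤ ENNReal.ofReal (L - (Real.log ρ + Real.posLog (ρ⁻¹ * ‖c - c'‖))) := by
  have h1 : ∫⁻ z, ∫⁻ w, G L z w ∂(circ c' ρ) ∂(circ c ρ)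
      = ∫⁻ z, ENNReal.ofReal (L - (Real.log ρ + Real.posLog (ρ⁻¹ * ‖c' - z‖))) ∂(circ c ρ) := by
    apply lintegral_congr_ae
    filter_upwards [circ_ae_sphere c hρ] with z hz
    refine inner_G hρ (fun w hw => ?_) hL0
    rw [mem_sphere_iff_norm] at hz hw
    calc ‖w - z‖ = ‖(w - c') - (c - c') - (z - c)‖ := by congr 1; ring
      _ ≤ ‖w - c'‖ + ‖c - c'‖ + ‖z - c‖ := (norm_sub_le _ _).trans (by gcongr; exact norm_sub_le _ _)
      _ ≤ Real.exp L := by linarith
  rw [h1]
  rcases le_or_gt ‖c - c'‖ ρ with hle | hgt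
  · have hp : Real.posLog (ρ⁻¹ * ‖c - c'‖) = 0 := by
      rw [Real.posLog_eq_zero_iff, abs_of_nonneg (by positivity)]
      rw [inv_mul_le_iff₀ hρ]
      linarith
    rw [hp]
    calc ∫⁻ z, ENNReal.ofReal (L - (Real.log ρ + Real.posLog (ρ⁻¹ * ‖c' - z‖))) ∂(circ c ρ)
        ≤ ∫⁻ _, ENNReal.ofReal (L - (Real.log ρ + 0)) ∂(circ c ρ) := by
          apply lintegral_mono
          intro z
          apply ENNReal.ofReal_le_ofReal
          have : 0 ≤ Real.posLog (ρ⁻¹ * ‖c' - z‖) := Real.posLog_nonneg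
          linarith
      _ = _ := by simp
  · have hp : Real.log ρ + Real.posLog (ρ⁻¹ * ‖c - c'‖) = Real.log ‖c - c'‖ := by
      rw [Real.posLog_eq_log]
      · rw [Real.log_mul (by positivity) (by linarith [norm_nonneg (c - c')]), Real.log_inv]
        ring
      · rw [abs_of_nonneg (by positivity), ← div_eq_inv_mul, le_div_iff₀ hρ]
        linarith
    calc ∫⁻ z, ENNReal.ofReal (L - (Real.log ρ + Real.posLog (ρ⁻¹ * ‖c' - z‖))) ∂(circ c ρ)
        ≤ ∫⁻ z, ENNReal.ofReal (L - Real.log ‖z - c'‖) ∂(circ c ρ) := by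
          apply lintegral_mono_ae
          filter_upwards [circ_ae_ne c hρ c'] with z hz
          apply ENNReal.ofReal_le_ofReal
          have h2 : 0 < ‖z - c'‖ := norm_pos_iff.2 (sub_ne_zero.2 hz.symm)
          have h3 : Real.log (ρ⁻¹ * ‖c' - z‖) ≤ Real.posLog (ρ⁻¹ * ‖c' - z‖) := le_max_right _ _
          rw [Real.log_mul (by positivity) (by rw [norm_sub_rev]; exact h2.ne'), Real.log_inv,
            norm_sub_rev c' z] at h3
          rw [norm_sub_rev c' z]
          linarith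
      _ = ∫⁻ z, G L c' z ∂(circ c ρ) := by
          apply lintegral_congr_ae
          filter_upwards [circ_ae_ne c hρ c'] with z hz
          rw [G_of_ne hz, norm_sub_rev]
      _ = _ := by
          refine inner_G hρ (fun w hw => ?_) hL0
          rw [mem_sphere_iff_norm] at hw
          calc ‖w - c'‖ = ‖(w - c) + (c - c')‖ := by congr 1; ring
            _ ≤ ‖w - c‖ + ‖c - c'‖ := norm_add_le _ _
            _ ≤ Real.exp L := by linarith

/-! ### The dilation lemma -/

lemma exists_dilation {n : ℕ} (z u : Fin n → ℂ) {η : ℝ} (h0 : 0 < η) (h1 : η < 1) :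
    ∃ s : ℂ, ‖s‖ = 1 - η ∧ (1 - η) ^ (numPairs n) * pairProd (fun j => z j + u j)
      ≤ pairProd (fun j => z j + s * u j) := by
  have hη : 0 < 1 - η := by linarith
  set g : ℂ → ℂ := fun t => ∏ j, ∏ k ∈ Finset.Ioi j, (t * (z j - z k) + (u j - u k)) with hg
  have hd : Differentiable ℂ g := by
    rw [hg]
    fun_prop
  have hR : 0 < 1 / (1 - η) := by positivity
  obtain ⟨t, ht, hmax⟩ := Complex.exists_mem_frontier_isMaxOn_norm
    (U := Metric.ball (0 : ℂ) (1 / (1 - η))) Metric.isBounded_ball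
    ⟨0, Metric.mem_ball_self hR⟩ hd.diffContOnCl
  rw [frontier_ball _ hR.ne', mem_sphere_iff_norm, sub_zero] at ht
  rw [closure_ball _ hR.ne'] at hmax
  have ht0 : t ≠ 0 := by
    rintro rfl
    simp only [norm_zero] at ht
    exact hR.ne ht
  have hone : (1 : ℂ) ∈ Metric.closedBall (0 : ℂ) (1 / (1 - η)) := by
    rw [mem_closedBall_iff_norm, sub_zero, norm_one, le_div_iff₀ hη]
    linarith
  have hle : ‖g 1‖ ≤ ‖g t‖ := hmax hone
  refine ⟨t⁻¹, by rw [norm_inv, ht, one_div, inv_inv], ?_⟩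
  have e1 : pairProd (fun j => z j + u j) = ‖g 1‖ := by
    unfold pairProd
    rw [hg]
    simp only [norm_prod]
    refine Finset.prod_congr rfl fun j _ => Finset.prod_congr rfl fun k _ => ?_
    congr 1
    ring
  have e2 : pairProd (fun j => z j + t⁻¹ * u j) = (1 - η) ^ (numPairs n) * ‖g t‖ := by
    unfold pairProd
    rw [hg]
    simp only [norm_prod]
    have hs : (1 - η) ^ (numPairs n) = ∏ j : Fin n, ∏ _k ∈ Finset.Ioi j, ‖t⁻¹‖ := by
      simp only [Finset.prod_const]
      rw [Finset.prod_pow_eq_pow_sum]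
      rw [norm_inv, ht, one_div, inv_inv]
      rfl
    rw [hs]
    simp only [← Finset.prod_mul_distrib, ← norm_mul]
    refine Finset.prod_congr rfl fun j _ => Finset.prod_congr rfl fun k _ => ?_
    congr 1
    field_simp
    ring
  rw [e1, e2]
  exact mul_le_mul_of_nonneg_left hle (by positivity)

/-! ### The lower bound for the capacity -/

lemma sum_symm {n : ℕ} (a : Fin n → Fin n → ℝ) (ha : ∀ j k, a j k = a k j) :
    ∑ j, ∑ k, a j k = ∑ j, a j j + 2 * ∑ j, ∑ k ∈ Finset.Ioi j, a j k := by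
  have h1 : ∀ j, ∑ k, a j k = ∑ k ∈ Finset.Iio j, a j k + a j j + ∑ k ∈ Finset.Ioi j, a j k := by
    intro j
    have hu : (Finset.univ : Finset (Fin n)) = (Finset.Iio j ∪ {j}) ∪ Finset.Ioi j := by
      ext k
      simp only [Finset.mem_univ, Finset.mem_union, Finset.mem_Iio, Finset.mem_singleton,
        Finset.mem_Ioi, true_iff]
      rcases lt_trichotomy k j with h | h | h
      · exact Or.inl (Or.inl h)
      · exact Or.inl (Or.inr h)
      · exact Or.inr h
    rw [hu, Finset.sum_union, Finset.sum_union, Finset.sum_singleton]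
    · rw [Finset.disjoint_singleton_right]
      simp
    · rw [Finset.disjoint_left]
      intro k hk hk'
      simp only [Finset.mem_union, Finset.mem_Iio, Finset.mem_singleton, Finset.mem_Ioi] at hk hk'
      rcases hk with h | h
      · exact absurd (h.trans hk') (lt_irrefl _)
      · exact absurd (h ▸ hk') (lt_irrefl _)
  have h2 : ∑ j, ∑ k ∈ Finset.Iio j, a j k = ∑ j, ∑ k ∈ Finset.Ioi j, a j k := by
    rw [Finset.sum_comm' (t' := Finset.univ) (s' := fun k => Finset.Ioi k)]
    · exact Finset.sum_congr rfl fun j _ => Finset.sum_congr rfl fun k _ => ha k j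
    · intro x y
      simp
  simp_rw [h1, Finset.sum_add_distrib]
  rw [h2]
  ring

/-- the mean of the uniform measures on circles of radius `ρ` centred at the `c j` -/
noncomputable def mix {n : ℕ} (c : Fin n → ℂ) (ρ : ℝ) : Measure ℂ :=
  ∑ j, ((n : ℝ≥0∞)⁻¹) • circ (c j) ρ

lemma lintegral_mix {n : ℕ} (c : Fin n → ℂ) (ρ : ℝ) (f : ℂ → ℝ≥0∞) :
    ∫⁻ z, f z ∂(mix c ρ) = ∑ j, (n : ℝ≥0∞)⁻¹ * ∫⁻ z, f z ∂(circ (c j) ρ) := by
  unfold mix
  rw [lintegral_finsetSum_measure]
  simp [lintegral_smul_measure]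

lemma isProb_mix {n : ℕ} (hn : 0 < n) (c : Fin n → ℂ) (ρ : ℝ) :
    IsProbabilityMeasure (mix c ρ) := by
  constructor
  have h := lintegral_mix c ρ (fun _ => 1)
  simp only [lintegral_one, measure_univ, mul_one, Finset.sum_const, Finset.card_univ,
    Fintype.card_fin, nsmul_eq_mul] at h
  rw [h, ENNReal.mul_inv_cancel (by exact_mod_cast hn.ne') (ENNReal.natCast_ne_top n)]

lemma mix_ae {n : ℕ} {c : Fin n → ℂ} {ρ : ℝ} {p : ℂ → Prop}
    (h : ∀ j, ∀ᵐ z ∂(circ (c j) ρ), p z) : ∀ᵐ z ∂(mix c ρ), p z := by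
  unfold mix
  rw [ae_iff, Measure.finsetSum_apply]
  refine Finset.sum_eq_zero fun j _ => ?_
  rw [Measure.smul_apply, (ae_iff.1 (h j)), smul_zero]

lemma J_mix_le {n : ℕ} (hn : 0 < n) {c : Fin n → ℂ} {ρ L : ℝ} (hρ : 0 < ρ) (hL0 : 0 ≤ L)
    (hL : ∀ j k, ‖c j - c k‖ + 2 * ρ ≤ Real.exp L) (hc : ∀ j k, j ≠ k → c j ≠ c k) :
    ∫⁻ z, ∫⁻ w, G L z w ∂(mix c ρ) ∂(mix c ρ)
      ≤ ENNReal.ofReal (L - ((n : ℝ) ^ 2)⁻¹ *
        ((n : ℝ) * Real.log ρ + 2 * Real.log (pairProd c))) := by
  have hn' : (0 : ℝ) < n := by exact_mod_cast hn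
  set m : Fin n → Fin n → ℝ := fun j k => Real.log ρ + Real.posLog (ρ⁻¹ * ‖c j - c k‖) with hm
  have hρL : ρ ≤ Real.exp L := by
    have := hL ⟨0, hn⟩ ⟨0, hn⟩
    simp only [sub_self, norm_zero] at this
    linarith
  have hmle : ∀ j k, m j k ≤ L := by
    intro j k
    have hlogρ : Real.log ρ ≤ L := by
      have := Real.log_le_log hρ hρL
      rwa [Real.log_exp] at this
    rcases le_or_gt ‖c j - c k‖ ρ with hle | hgt
    · have hp : Real.posLog (ρ⁻¹ * ‖c j - c k‖) = 0 := by
        rw [Real.posLog_eq_zero_iff, abs_of_nonneg (by positivity), inv_mul_le_iff₀ hρ]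
        linarith
      simp only [hm, hp]
      linarith
    · have hp : Real.log ρ + Real.posLog (ρ⁻¹ * ‖c j - c k‖) = Real.log ‖c j - c k‖ := by
        rw [Real.posLog_eq_log]
        · rw [Real.log_mul (by positivity) (by linarith [norm_nonneg (c j - c k)]),
            Real.log_inv]
          ring
        · rw [abs_of_nonneg (by positivity), ← div_eq_inv_mul, le_div_iff₀ hρ]
          linarith
      simp only [hm, hp]
      have h2 := Real.log_le_log (hρ.trans hgt) (show ‖c j - c k‖ ≤ Real.exp L by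
        linarith [hL j k])
      rwa [Real.log_exp] at h2
  have hJ : ∫⁻ z, ∫⁻ w, G L z w ∂(mix c ρ) ∂(mix c ρ)
      ≤ ENNReal.ofReal (∑ j, ∑ k, ((n : ℝ) ^ 2)⁻¹ * (L - m j k)) := by
    rw [ENNReal.ofReal_sum_of_nonneg (fun j _ => Finset.sum_nonneg fun k _ =>
      mul_nonneg (by positivity) (by linarith [hmle j k]))]
    rw [lintegral_mix]
    refine Finset.sum_le_sum fun j _ => ?_
    rw [ENNReal.ofReal_sum_of_nonneg (fun k _ =>
      mul_nonneg (by positivity) (by linarith [hmle j k]))]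
    simp_rw [lintegral_mix]
    rw [lintegral_finsetSum']
    · rw [Finset.mul_sum]
      refine Finset.sum_le_sum fun k _ => ?_
      have hcm : Measurable (fun z => ∫⁻ w, G L z w ∂(circ (c k) ρ)) :=
        (measurable_G L).lintegral_prod_right'
      rw [lintegral_const_mul _ hcm, ENNReal.ofReal_mul (by positivity)]
      have hinv : ENNReal.ofReal (((n : ℝ) ^ 2)⁻¹) = (n : ℝ≥0∞)⁻¹ * (n : ℝ≥0∞)⁻¹ := by
        rw [pow_two, mul_inv, ENNReal.ofReal_mul (by positivity),
          ENNReal.ofReal_inv_of_pos hn', ENNReal.ofReal_natCast]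
      rw [hinv, ← mul_assoc]
      gcongr
      exact outer_G hρ hL0 (hL j k)
    · intro k _
      have hcm : Measurable (fun z => ∫⁻ w, G L z w ∂(circ (c k) ρ)) :=
        (measurable_G L).lintegral_prod_right'
      exact (hcm.const_mul _).aemeasurable
  refine hJ.trans (ENNReal.ofReal_le_ofReal ?_)
  have hsum : ∑ j, ∑ k, ((n : ℝ) ^ 2)⁻¹ * (L - m j k)
      = L - ((n : ℝ) ^ 2)⁻¹ * ∑ j, ∑ k, m j k := by
    simp only [← Finset.mul_sum, Finset.sum_sub_distrib, Finset.sum_const, Finset.card_univ,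
      Fintype.card_fin, nsmul_eq_mul]
    field_simp
  rw [hsum]
  have hms : ∀ j k, m j k = m k j := by
    intro j k
    simp only [hm]
    rw [norm_sub_rev]
  rw [sum_symm m hms]
  have hdiag : ∑ j, m j j = (n : ℝ) * Real.log ρ := by
    simp [hm]
  have hoff : Real.log (pairProd c) ≤ ∑ j, ∑ k ∈ Finset.Ioi j, m j k := by
    have hpos : ∀ j, ∀ k ∈ Finset.Ioi j, 0 < ‖c j - c k‖ := fun j k hk =>
      norm_pos_iff.2 (sub_ne_zero.2 (hc j k (Finset.mem_Ioi.1 hk).ne))
    unfold pairProd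
    rw [Real.log_prod fun j _ => (Finset.prod_pos fun k hk => hpos j k hk).ne']
    refine Finset.sum_le_sum fun j _ => ?_
    rw [Real.log_prod fun k hk => (hpos j k hk).ne']
    refine Finset.sum_le_sum fun k hk => ?_
    have h3 : Real.log (ρ⁻¹ * ‖c j - c k‖) ≤ Real.posLog (ρ⁻¹ * ‖c j - c k‖) := le_max_right _ _
    rw [Real.log_mul (by positivity) (hpos j k hk).ne', Real.log_inv] at h3
    simp only [hm]
    linarith
  have hinvpos : 0 < ((n : ℝ) ^ 2)⁻¹ := by positivity
  rw [hdiag]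
  have : ((n : ℝ) ^ 2)⁻¹ * ((n : ℝ) * Real.log ρ + 2 * Real.log (pairProd c))
      ≤ ((n : ℝ) ^ 2)⁻¹ * ((n : ℝ) * Real.log ρ + 2 * ∑ j, ∑ k ∈ Finset.Ioi j, m j k) := by
    apply mul_le_mul_of_nonneg_left _ hinvpos.le
    linarith
  linarith

/-! ### Assembly -/

lemma isCompact_closedNbhd {K : Set ℂ} (hK : IsCompact K) (hne : K.Nonempty) (r : ℝ) :
    IsCompact (closedNbhd K r) := by
  apply Metric.isCompact_of_isClosed_isBounded
  · exact isClosed_le (Metric.continuous_infDist_pt K) continuous_const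
  · obtain ⟨B, hB⟩ := hK.isBounded.subset_closedBall (0 : ℂ)
    refine (Metric.isBounded_closedBall (x := (0 : ℂ)) (r := B + r)).subset ?_
    intro z hz
    obtain ⟨y, hy, hd⟩ := hK.exists_infDist_eq_dist hne z
    have h1 : dist z y ≤ r := by
      rw [← hd]
      exact hz
    have h2 := hB hy
    rw [Metric.mem_closedBall] at h2 ⊢
    linarith [dist_triangle z y 0]

lemma mem_closedNbhd_of_dist {K : Set ℂ} {r : ℝ} {z y : ℂ} (hy : y ∈ K) (h : dist z y ≤ r) :
    z ∈ closedNbhd K r :=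
  (Metric.infDist_le_dist_of_mem hy).trans h

lemma continuous_pairProd (n : ℕ) : Continuous (pairProd : (Fin n → ℂ) → ℝ) := by
  unfold pairProd
  fun_prop

lemma pairProd_nonneg {n : ℕ} (w : Fin n → ℂ) : 0 ≤ pairProd w :=
  Finset.prod_nonneg fun _ _ => Finset.prod_nonneg fun _ _ => norm_nonneg _

lemma prod_rpow_eq {n : ℕ} (w : Fin n → ℂ) (p : ℝ) :
    ∏ j, ∏ k ∈ Finset.Ioi j, ‖w j - w k‖ ^ p = (pairProd w) ^ p := by
  unfold pairProd
  rw [← Real.finsetProd_rpow _ _ fun j _ => Finset.prod_nonneg fun _ _ => norm_nonneg _]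
  refine Finset.prod_congr rfl fun j _ => ?_
  rw [← Real.finsetProd_rpow _ _ fun _ _ => norm_nonneg _]

lemma exists_maximizer {E : Set ℂ} (hE : IsCompact E) (hne : E.Nonempty) (n : ℕ) :
    ∃ w : Fin n → ℂ, (∀ j, w j ∈ E) ∧ ∀ v : Fin n → ℂ, (∀ j, v j ∈ E) → pairProd v ≤ pairProd w := by
  obtain ⟨e, he⟩ := hne
  obtain ⟨w, hw, hmax⟩ := (isCompact_univ_pi (fun _ : Fin n => hE)).exists_isMaxOn
    ⟨fun _ => e, fun _ _ => he⟩ (continuous_pairProd n).continuousOn
  exact ⟨w, fun j => hw j (Set.mem_univ j), fun v hv => hmax (fun j _ => hv j)⟩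

lemma nthDiameter_eq {E : Set ℂ} {n : ℕ} (hn : 2 ≤ n) {w : Fin n → ℂ} (hw : ∀ j, w j ∈ E)
    (hmax : ∀ v : Fin n → ℂ, (∀ j, v j ∈ E) → pairProd v ≤ pairProd w) (hpos : 0 < pairProd w) :
    nthDiameter n E = Real.exp (Real.log (pairProd w) / numPairs n) := by
  have h2 : (2 : ℝ) ≤ n := by exact_mod_cast hn
  have hp : 0 < (n : ℝ) * ((n : ℝ) - 1) := by nlinarith
  have he : Real.exp (Real.log (pairProd w) / numPairs n)
      = (pairProd w) ^ (2 / ((n : ℝ) * ((n : ℝ) - 1))) := by
    rw [Real.rpow_def_of_pos hpos, numPairs_eq]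
    congr 1
    field_simp
  rw [he]
  unfold nthDiameter
  apply IsGreatest.csSup_eq
  constructor
  · exact ⟨w, hw, (prod_rpow_eq w _).symm⟩
  · rintro x ⟨v, hv, rfl⟩
    rw [prod_rpow_eq]
    exact Real.rpow_le_rpow (pairProd_nonneg v) (hmax v hv) (by positivity)

lemma exists_pairProd_pos {K : Set ℂ} (hne : K.Nonempty) {r : ℝ} (hr : 0 < r) (n : ℕ) :
    ∃ w : Fin n → ℂ, (∀ j, w j ∈ closedNbhd K r) ∧ 0 < pairProd w := by
  obtain ⟨y, hy⟩ := hne
  rcases Nat.eq_zero_or_pos n with rfl | hn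
  · exact ⟨fun _ => 0, fun j => j.elim0, by simp [pairProd]⟩
  have hn' : (0 : ℝ) < n := by exact_mod_cast hn
  refine ⟨fun j => y + (((j : ℕ) : ℝ) * (r / n) : ℝ), fun j => ?_, ?_⟩
  · apply mem_closedNbhd_of_dist hy
    rw [dist_eq_norm, add_sub_cancel_left, Complex.norm_real, Real.norm_eq_abs,
      abs_of_nonneg (by positivity)]
    have hj : ((j : ℕ) : ℝ) ≤ n := by exact_mod_cast j.2.le
    calc ((j : ℕ) : ℝ) * (r / n) ≤ n * (r / n) := by gcongr
      _ = r := by field_simp
  · refine Finset.prod_pos fun j _ => Finset.prod_pos fun k hk => ?_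
    rw [norm_pos_iff, sub_ne_zero]
    intro h
    have h1 : (((j : ℕ) : ℝ) * (r / n)) = (((k : ℕ) : ℝ) * (r / n)) := by
      exact_mod_cast add_left_cancel h
    have h2 : ((j : ℕ) : ℝ) = ((k : ℕ) : ℝ) := mul_right_cancel₀ (by positivity) h1
    have h3 : (j : ℕ) = (k : ℕ) := by exact_mod_cast h2
    exact (Finset.mem_Ioi.1 hk).ne (Fin.ext h3)

lemma bounds {K : Set ℂ} (hK : IsCompact K) (hne : K.Nonempty) {L : ℝ} (hL0 : 0 ≤ L)
    (hL : ∀ z ∈ closedNbhd K 1, ∀ w ∈ closedNbhd K 1, ‖z - w‖ + 2 ≤ Real.exp L)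
    {n : ℕ} (hn : 2 ≤ n) :
    1 ≤ nthDiameter n (closedNbhd K (1 / (n : ℝ)))
        / (capacity (closedNbhd K (1 / (n : ℝ)))).toReal ∧
    nthDiameter n (closedNbhd K (1 / (n : ℝ)))
        / (capacity (closedNbhd K (1 / (n : ℝ)))).toReal
      ≤ Real.exp (L / n - (1 - 1 / n) * Real.log (1 - 1 / n) + 2 * (Real.log n / n)) := by
  have hn2 : (2 : ℝ) ≤ n := by exact_mod_cast hn
  have hn0 : (0 : ℝ) < n := by linarith
  set r : ℝ := 1 / (n : ℝ) with hr
  have hr0 : 0 < r := by positivity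
  have hr1 : r < 1 := by
    rw [hr, div_lt_one hn0]
    linarith
  set E := closedNbhd K r with hE
  have hEc : IsCompact E := isCompact_closedNbhd hK hne r
  have hE1 : E ⊆ closedNbhd K 1 := fun z (hz : Metric.infDist z K ≤ r) =>
    (hz.trans hr1.le : Metric.infDist z K ≤ 1)
  have hEne : E.Nonempty := by
    obtain ⟨y, hy⟩ := hne
    exact ⟨y, mem_closedNbhd_of_dist hy (by simpa using hr0.le)⟩
  have hEL : ∀ z ∈ E, ∀ w ∈ E, ‖z - w‖ + 2 ≤ Real.exp L := fun z hz w hw =>
    hL z (hE1 hz) w (hE1 hw)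
  obtain ⟨w, hwE, hmax⟩ := exists_maximizer hEc hEne n
  have hMpos : 0 < pairProd w := by
    obtain ⟨v, hv, hvpos⟩ := exists_pairProd_pos hne hr0 n
    exact hvpos.trans_le (hmax v hv)
  have hN : 0 < (numPairs n : ℝ) := by
    rw [numPairs_eq]
    have h2 : 0 < (n : ℝ) * ((n : ℝ) - 1) := by nlinarith
    linarith
  have hδ := nthDiameter_eq hn hwE hmax hMpos
  set M := pairProd w with hM
  -- upper bound for the capacity
  have hup : (⨆ (μ : Measure ℂ) (_ : IsProbabilityMeasure μ ∧ μ Eᶜ = 0), energy μ)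
      ≤ ((Real.log M / numPairs n : ℝ) : EReal) := by
    refine iSup_le fun μ => iSup_le fun hμ => ?_
    have := hμ.1
    exact energy_le hμ.2 hn hL0 (fun z hz w hw => by linarith [hEL z hz w hw]) hmax
  -- lower bound for the capacity
  have hlow : ((((n : ℝ) ^ 2)⁻¹ * ((n : ℝ) * Real.log (r * r) +
      2 * (numPairs n * Real.log (1 - r) + Real.log M)) : ℝ) : EReal)
      ≤ ⨆ (μ : Measure ℂ) (_ : IsProbabilityMeasure μ ∧ μ Eᶜ = 0), energy μ := by
    have hex : ∀ j, ∃ y ∈ K, dist (w j) y ≤ r := by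
      intro j
      obtain ⟨y, hy, hd⟩ := hK.exists_infDist_eq_dist hne (w j)
      exact ⟨y, hy, hd ▸ hwE j⟩
    choose z hzK hzd using hex
    obtain ⟨s, hs, hsle⟩ := exists_dilation z (fun j => w j - z j) hr0 hr1
    have hwz : (fun j => z j + (w j - z j)) = w := by
      ext j
      ring
    rw [hwz] at hsle
    set c : Fin n → ℂ := fun j => z j + s * (w j - z j) with hc
    have hcpos : 0 < pairProd c := by
      have : 0 < (1 - r) ^ (numPairs n) * pairProd w := by
        have : 0 < 1 - r := by linarith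
        positivity
      exact this.trans_le hsle
    have hcz : ∀ j, dist (c j) (z j) ≤ (1 - r) * r := by
      intro j
      rw [dist_eq_norm]
      have : c j - z j = s * (w j - z j) := by
        simp only [hc]
        ring
      rw [this, norm_mul, hs]
      have h1 : ‖w j - z j‖ ≤ r := by
        rw [← dist_eq_norm]
        exact hzd j
      have : 0 ≤ 1 - r := by linarith
      gcongr
    have hρ : 0 < r * r := by positivity
    have hsph : ∀ j, ∀ x ∈ Metric.sphere (c j) (r * r), x ∈ E := by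
      intro j x hx
      apply mem_closedNbhd_of_dist (hzK j)
      rw [Metric.mem_sphere] at hx
      calc dist x (z j) ≤ dist x (c j) + dist (c j) (z j) := dist_triangle _ _ _
        _ ≤ r * r + (1 - r) * r := by
          rw [hx]
          linarith [hcz j]
        _ = r := by ring
    have hcE : ∀ j, c j ∈ E := by
      intro j
      apply mem_closedNbhd_of_dist (hzK j)
      have := hcz j
      nlinarith
    have hcne : ∀ j k, j ≠ k → c j ≠ c k := by
      have hlt : ∀ j k, j < k → c j ≠ c k := by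
        intro j k hjk h
        have h0 : pairProd c = 0 := by
          unfold pairProd
          refine Finset.prod_eq_zero (Finset.mem_univ j) ?_
          refine Finset.prod_eq_zero (Finset.mem_Ioi.2 hjk) ?_
          rw [h, sub_self, norm_zero]
        exact hcpos.ne' h0
      intro j k hjk
      rcases lt_or_gt_of_ne hjk with h | h
      · exact hlt j k h
      · exact (hlt k j h).symm
    have hrr : 2 * (r * r) ≤ 2 := by nlinarith
    have hcL : ∀ j k, ‖c j - c k‖ + 2 * (r * r) ≤ Real.exp L := fun j k => by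
      linarith [hEL _ (hcE j) _ (hcE k)]
    have hprob : IsProbabilityMeasure (mix c (r * r)) := isProb_mix (by omega) c _
    have hmixE : ∀ᵐ x ∂(mix c (r * r)), x ∈ E := by
      apply mix_ae
      intro j
      filter_upwards [circ_ae_sphere (c j) hρ] with x hx
      exact hsph j x hx
    have hsupp : (mix c (r * r)) Eᶜ = 0 := by
      have := ae_iff.1 hmixE
      exact this
    have hJ := J_mix_le (by omega) hρ hL0 hcL hcne
    have hen := energy_eq (μ := mix c (r * r)) hL0 (by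
      filter_upwards [hmixE] with x hx
      filter_upwards [hmixE] with y hy
      linarith [hEL x hx y hy])
    refine le_trans ?_ (le_iSup₂_of_le (mix c (r * r)) ⟨hprob, hsupp⟩ le_rfl)
    rw [hen]
    set J := ∫⁻ z, ∫⁻ w, G L z w ∂(mix c (r * r)) ∂(mix c (r * r)) with hJdef
    have hJt : J ≠ ⊤ := ne_top_of_le_ne_top ENNReal.ofReal_ne_top hJ
    rw [(EReal.coe_ennreal_toReal hJt).symm, ← EReal.coe_sub, EReal.coe_le_coe_iff]
    have hlogc : (numPairs n : ℝ) * Real.log (1 - r) + Real.log M ≤ Real.log (pairProd c) := by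
      have h1r : 0 < 1 - r := by linarith
      have := Real.log_le_log (by positivity) hsle
      rw [Real.log_mul (by positivity) hMpos.ne', Real.log_pow] at this
      exact this
    -- the real number inside `ofReal` is nonnegative
    have hX : J.toReal ≤ L - ((n : ℝ) ^ 2)⁻¹ *
        ((n : ℝ) * Real.log (r * r) + 2 * Real.log (pairProd c)) := by
      have h0 : 0 ≤ L - ((n : ℝ) ^ 2)⁻¹ *
          ((n : ℝ) * Real.log (r * r) + 2 * Real.log (pairProd c)) := by
        have hlr : Real.log (r * r) ≤ L := by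
          have : r * r ≤ Real.exp L := by
            have := Real.one_le_exp hL0
            nlinarith
          have := Real.log_le_log hρ this
          rwa [Real.log_exp] at this
        have hlp : Real.log (pairProd c) ≤ numPairs n * L := by
          have hle : pairProd c ≤ ∏ j : Fin n, ∏ _k ∈ Finset.Ioi j, Real.exp L := by
            unfold pairProd
            refine Finset.prod_le_prod (fun j _ => Finset.prod_nonneg fun _ _ => norm_nonneg _)
              fun j _ => ?_
            refine Finset.prod_le_prod (fun _ _ => norm_nonneg _) fun k _ => ?_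
            linarith [hcL j k]
          have he : ∏ j : Fin n, ∏ _k ∈ Finset.Ioi j, Real.exp L = Real.exp (numPairs n * L) := by
            simp only [Finset.prod_const]
            rw [Finset.prod_pow_eq_pow_sum, ← Real.exp_nat_mul]
            rfl
          rw [he] at hle
          have := Real.log_le_log hcpos hle
          rwa [Real.log_exp] at this
        rw [numPairs_eq] at hlp
        have hinv : 0 < ((n : ℝ) ^ 2)⁻¹ := by positivity
        have h5 : ((n : ℝ) ^ 2)⁻¹ * ((n : ℝ) * Real.log (r * r) + 2 * Real.log (pairProd c))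
            ≤ ((n : ℝ) ^ 2)⁻¹ * ((n : ℝ) * L + 2 * ((n : ℝ) * ((n : ℝ) - 1) / 2 * L)) := by
          apply mul_le_mul_of_nonneg_left _ hinv.le
          have := mul_le_mul_of_nonneg_left hlr hn0.le
          linarith
        have h6 : ((n : ℝ) ^ 2)⁻¹ * ((n : ℝ) * L + 2 * ((n : ℝ) * ((n : ℝ) - 1) / 2 * L)) = L := by
          field_simp
          ring
        linarith
      have := ENNReal.toReal_mono ENNReal.ofReal_ne_top hJ
      rwa [ENNReal.toReal_ofReal h0] at this
    have hinv : 0 < ((n : ℝ) ^ 2)⁻¹ := by positivity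
    have : ((n : ℝ) ^ 2)⁻¹ * ((n : ℝ) * Real.log (r * r) +
        2 * (numPairs n * Real.log (1 - r) + Real.log M))
        ≤ ((n : ℝ) ^ 2)⁻¹ * ((n : ℝ) * Real.log (r * r) + 2 * Real.log (pairProd c)) := by
      apply mul_le_mul_of_nonneg_left _ hinv.le
      linarith
    linarith
  -- conclusion
  set S := ⨆ (μ : Measure ℂ) (_ : IsProbabilityMeasure μ ∧ μ Eᶜ = 0), energy μ with hS
  have hcap : capacity E = EReal.exp S := rfl
  obtain ⟨σ, hσ⟩ : ∃ σ : ℝ, S = (σ : EReal) := by
    refine ⟨S.toReal, (EReal.coe_toReal ?_ ?_).symm⟩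
    · exact ne_top_of_le_ne_top (EReal.coe_ne_top _) hup
    · exact ne_bot_of_le_ne_bot (EReal.coe_ne_bot _) hlow
  rw [hσ, EReal.coe_le_coe_iff] at hup hlow
  have hC : (capacity E).toReal = Real.exp σ := by
    rw [hcap, hσ, EReal.exp_coe, ENNReal.toReal_ofReal (Real.exp_pos σ).le]
  rw [hδ, hC, ← Real.exp_sub]
  constructor
  · apply Real.one_le_exp
    linarith
  · apply Real.exp_le_exp.2
    set t := Real.log M / numPairs n with ht
    have hMt : Real.log M = numPairs n * t := by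
      rw [ht]
      field_simp
    have htL : t ≤ L := by
      rw [ht, div_le_iff₀ hN]
      have hle : M ≤ ∏ j : Fin n, ∏ _k ∈ Finset.Ioi j, Real.exp L := by
        rw [hM]
        unfold pairProd
        refine Finset.prod_le_prod (fun j _ => Finset.prod_nonneg fun _ _ => norm_nonneg _)
          fun j _ => ?_
        refine Finset.prod_le_prod (fun _ _ => norm_nonneg _) fun k _ => ?_
        linarith [hEL _ (hwE j) _ (hwE k)]
      have he : ∏ j : Fin n, ∏ _k ∈ Finset.Ioi j, Real.exp L = Real.exp (numPairs n * L) := by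
        simp only [Finset.prod_const]
        rw [Finset.prod_pow_eq_pow_sum, ← Real.exp_nat_mul]
        rfl
      rw [he] at hle
      have := Real.log_le_log hMpos hle
      rw [Real.log_exp] at this
      linarith
    rw [hMt, numPairs_eq] at hlow
    have hlogr : Real.log (r * r) = -(2 * Real.log n) := by
      rw [Real.log_mul hr0.ne' hr0.ne', hr, one_div, Real.log_inv]
      ring
    rw [hlogr] at hlow
    have h7 : ((n : ℝ) ^ 2)⁻¹ * ((n : ℝ) * -(2 * Real.log n) +
        2 * ((n : ℝ) * ((n : ℝ) - 1) / 2 * Real.log (1 - r) + (n : ℝ) * ((n : ℝ) - 1) / 2 * t))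
        = (1 - r) * Real.log (1 - r) + t - t / n - 2 * (Real.log n / n) := by
      rw [hr]
      field_simp
      ring
    rw [h7] at hlow
    have h8 : t / n ≤ L / n := by gcongr
    linarith

theorem main_limit (K : Set ℂ) (hK : IsCompact K) (hne : K.Nonempty) :
    Tendsto (fun n : ℕ => nthDiameter n (closedNbhd K (1 / (n : ℝ))) /
      (capacity (closedNbhd K (1 / (n : ℝ)))).toReal) atTop (𝓝 1) := by
  obtain ⟨L, hL0, hL⟩ : ∃ L : ℝ, 0 ≤ L ∧
      ∀ z ∈ closedNbhd K 1, ∀ w ∈ closedNbhd K 1, ‖z - w‖ + 2 ≤ Real.exp L := by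
    obtain ⟨B, hB⟩ := (isCompact_closedNbhd hK hne 1).isBounded.subset_closedBall (0 : ℂ)
    have hpos : 0 < 2 * max B 0 + 2 := by positivity
    refine ⟨Real.log (2 * max B 0 + 2), ?_, ?_⟩
    · apply Real.log_nonneg
      linarith [le_max_right B 0]
    · intro z hz w hw
      rw [Real.exp_log hpos]
      have h1 := hB hz
      have h2 := hB hw
      rw [mem_closedBall_iff_norm, sub_zero] at h1 h2
      linarith [norm_sub_le z w, le_max_left B 0]
  have hlim : Tendsto (fun n : ℕ => Real.exp (L / n - (1 - 1 / (n : ℝ)) *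
      Real.log (1 - 1 / (n : ℝ)) + 2 * (Real.log n / n))) atTop (𝓝 1) := by
    have h1 : Tendsto (fun n : ℕ => L / (n : ℝ)) atTop (𝓝 0) :=
      tendsto_const_div_atTop_nhds_zero_nat L
    have h2 : Tendsto (fun n : ℕ => 1 - 1 / (n : ℝ)) atTop (𝓝 1) := by
      have := (tendsto_const_div_atTop_nhds_zero_nat (1 : ℝ)).const_sub 1
      simpa using this
    have h3 : Tendsto (fun n : ℕ => Real.log (1 - 1 / (n : ℝ))) atTop (𝓝 0) := by
      have := (Real.continuousAt_log (one_ne_zero)).tendsto.comp h2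
      simpa [Function.comp_def] using this
    have h4 : Tendsto (fun n : ℕ => Real.log (n : ℝ) / (n : ℝ)) atTop (𝓝 0) := by
      have := Real.isLittleO_log_id_atTop.tendsto_div_nhds_zero
      exact this.comp tendsto_natCast_atTop_atTop
    have h5 := ((h1.sub (h2.mul h3)).add (h4.const_mul 2))
    have h6 := (Real.continuous_exp.tendsto _).comp h5
    simpa [Function.comp_def] using h6
  refine tendsto_of_tendsto_of_tendsto_of_le_of_le' tendsto_const_nhds hlim ?_ ?_
  · filter_upwards [eventually_ge_atTop 2] with n hn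
    exact (bounds hK hne hL0 hL hn).1
  · filter_upwards [eventually_ge_atTop 2] with n hn
    exact (bounds hK hne hL0 hL hn).2

end Pool.Agent.Results.MP_d057eb_an.NthDiameterLimit
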